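import Pool.Agent.Helper98.GX.St4

/-!
# Project GX, module FAM: the pair as a weighted family of linear spaces
-/

set_option autoImplicit false

open scoped BigOperators

namespace Pool.Agent.Helper61.GX

open Pool.Agent.Helper98.GX
open Pool.Agent.Helper53.CX (DivVal LinSys IsNefCartier)

private theorem fam_one {K : Type} [Field K] [Algebra ℂ K] (v : DivVal K) : v.ord 1 = 0 := by
  have h := v.ord_mul 1 1 one_ne_zero one_ne_zero
  rw [one_mul] at h
  omega

/-- nonzero constants have order zero -/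
private theorem fam_const {K : Type} [Field K] [Algebra ℂ K] (v : DivVal K) (c : ℂ)
    (hc : c ≠ 0) : v.ord (algebraMap ℂ K c) = 0 := by
  obtain ⟨R, _, hR, _⟩ := v.exists_model
  have h1 : ∀ d : ℂ, d ≠ 0 → 0 ≤ v.ord (algebraMap ℂ K d) := fun d hd =>
    hR _ (R.algebraMap_mem d) (by simpa using hd)
  have h2 := h1 c hc
  have h3 := h1 c⁻¹ (inv_ne_zero hc)
  have h4 := v.ord_mul (algebraMap ℂ K c) (algebraMap ℂ K c⁻¹) (by simpa using hc)
    (by simpa using hc)
  rw [← map_mul, mul_inv_cancel₀ hc, map_one, fam_one] at h4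
  omega

private theorem unit_vec {α : Type} [Fintype α] (f : α → ℕ) (h : ∑ a, f a = 1) :
    ∃ a, f a = 1 ∧ ∀ b, b ≠ a → f b = 0 := by
  classical
  have h0 : ∃ a, f a ≠ 0 := by
    by_contra h1
    push Not at h1
    simp [h1] at h
  obtain ⟨a, ha⟩ := h0
  have h2 := Finset.add_sum_erase Finset.univ f (Finset.mem_univ a)
  rw [h] at h2
  refine ⟨a, by omega, fun b hb => ?_⟩
  have h3 : f b ≤ ∑ x ∈ Finset.univ.erase a, f x :=
    Finset.single_le_sum (f := f) (fun _ _ => Nat.zero_le _)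
      (Finset.mem_erase.2 ⟨hb, Finset.mem_univ _⟩)
  omega

private theorem conv {α : Type} {s : Set α} {F : Finset α} (hF : (F : Set α) ⊆ s) (f : α → ℤ)
    (h : ∀ q ∈ s, q ∉ F → f q = 0) : ∑ᶠ q ∈ s, f q = ∑ q ∈ F, f q := by
  apply finsum_mem_eq_sum_of_inter_support_eq
  ext q
  simp only [Set.mem_inter_iff, Function.mem_support, Finset.mem_coe]
  constructor
  · rintro ⟨h1, h2⟩
    refine ⟨?_, h2⟩
    by_contra h3
    exact h2 (h q h1 h3)
  · rintro ⟨h1, h2⟩
    exact ⟨hF h1, h2⟩

section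
variable {K : Type} [Field K] [Algebra ℂ K] {V : NormalProj K} {r : ℕ} {B : ClassBasis V r} {n : ℕ}
  {L : LogCoord K n}

/-- the section map -/
private noncomputable def secL (Fr : Frame B L) : (Fin (n + r) → ℂ) →ₗ[ℂ] K where
  toFun x := Fr.sec x
  map_add' x y := by
    simp only [Frame.sec, Pi.add_apply, map_add, add_mul, Finset.sum_add_distrib]
  map_smul' c x := by
    simp only [Frame.sec, Pi.smul_apply, smul_eq_mul, map_mul, RingHom.id_apply, Algebra.smul_def,
      Finset.mul_sum, mul_assoc]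

private theorem sec_single (Fr : Frame B L) (a : Fin (n + r)) :
    Fr.sec (Pi.single a 1) = Fr.g a := by
  unfold Frame.sec
  rw [Finset.sum_eq_single a]
  · rw [Pi.single_eq_same, map_one, one_mul]
  · intro b _ hb
    rw [Pi.single_eq_of_ne hb, map_zero, zero_mul]
  · intro h
    exact absurd (Finset.mem_univ a) h

/-- a prime divisor of degree one -/
private theorem primeData (hGAM : StGAM) (hSEC : StSEC) (Fr : Frame B L) (q : DivVal K)
    (hq : q ∈ V.primes) (h1 : ∑ k, B.deg q k = 1) :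
    ∃ (k : Fin r) (W : Submodule ℂ (Fin (n + r) → ℂ)) (h : K), W ≠ ⊥ ∧ W ≤ Blk Fr.bl k ∧ h ≠ 0 ∧
      (∀ v, Fr.smin v W = v.ord h) ∧
      ∀ q' ∈ V.primes, (q' = q → q'.ord h = 1 - (B.H k).div q') ∧
        (q' ≠ q → q'.ord h = - (B.H k).div q') := by
  classical
  obtain ⟨k, hk1, hk0⟩ := unit_vec _ h1
  obtain ⟨φ, hφ0, hφ1, hφ2⟩ := B.sec q hq
  have hsum : ∀ q' : DivVal K, ∑ l, (B.deg q l : ℤ) * (B.H l).div q' = (B.H k).div q' := by
    intro q'
    rw [Finset.sum_eq_single k]
    · rw [hk1]; simp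
    · intro l _ hl
      rw [hk0 l hl]; simp
    · intro h
      exact absurd (Finset.mem_univ k) h
  have hspan := hGAM K V r B n L Fr (fun l => (B.deg q l : ℤ)) φ hφ0 (by
    intro q' hq'
    by_cases h : q' = q
    · rw [h, hφ1]; exact zero_le_one
    · rw [hφ2 q' hq' h])
  have hx : φ ∈ (Blk Fr.bl k).map (secL Fr) := by
    refine (Submodule.span_le.2 ?_) hspan
    rintro h ⟨α, hα, rfl⟩
    have ht : ∑ a, α a = 1 := by
      have e1 : ∑ l : Fin r, ∑ a, (if Fr.bl a = l then (α a : ℤ) else 0) =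
          ∑ l : Fin r, (B.deg q l : ℤ) := Finset.sum_congr rfl fun l _ => hα l
      rw [Finset.sum_comm] at e1
      have e2 : ∀ a, ∑ l : Fin r, (if Fr.bl a = l then (α a : ℤ) else 0) = (α a : ℤ) := by
        intro a
        rw [Finset.sum_ite_eq]
        simp
      simp only [e2] at e1
      have e3 : ((∑ l, B.deg q l : ℕ) : ℤ) = 1 := by rw [h1]; rfl
      push_cast at e3
      rw [e3] at e1
      exact_mod_cast e1
    obtain ⟨a0, ha1, ha0⟩ := unit_vec _ ht
    have hg : ∏ a, Fr.g a ^ α a = Fr.g a0 := by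
      rw [Finset.prod_eq_single a0]
      · rw [ha1, pow_one]
      · intro b _ hb
        rw [ha0 b hb, pow_zero]
      · intro h
        exact absurd (Finset.mem_univ a0) h
    have hb : Fr.bl a0 = k := by
      by_contra hne
      have e := hα (Fr.bl a0)
      rw [hk0 _ hne, Finset.sum_eq_single a0] at e
      · rw [if_pos rfl, ha1] at e
        exact absurd e (by simp)
      · intro b _ hb
        rw [ha0 b hb]; simp
      · intro h
        exact absurd (Finset.mem_univ a0) h
    rw [SetLike.mem_coe, Submodule.mem_map]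
    refine ⟨Pi.single a0 1, ?_, ?_⟩
    · intro b hbb
      refine Pi.single_eq_of_ne ?_ _
      rintro rfl
      exact hbb hb
    · show Fr.sec _ = _
      rw [sec_single, hg]
  obtain ⟨x, hxB, hxs⟩ := Submodule.mem_map.1 hx
  have hxs' : Fr.sec x = φ := hxs
  have hx0 : x ≠ 0 := by
    rintro rfl
    apply hφ0
    rw [← hxs]
    exact map_zero _
  have hW : Submodule.span ℂ {x} ≤ Blk Fr.bl k := by
    rw [Submodule.span_singleton_le_iff_mem]
    exact hxB
  have hWb : Submodule.span ℂ {x} ≠ ⊥ := by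
    rw [Ne, Submodule.span_singleton_eq_bot]
    exact hx0
  refine ⟨k, Submodule.span ℂ {x}, φ, hWb, hW, hφ0, ?_, ?_⟩
  · intro v
    obtain ⟨-, y, hy, hy0, hyv⟩ := (hSEC K V r B n L Fr).2 v k _ hW hWb
    obtain ⟨c, rfl⟩ := Submodule.mem_span_singleton.1 hy
    have hc : c ≠ 0 := by
      rintro rfl
      exact hy0 (zero_smul _ _)
    have e1 : Fr.sec (c • x) = algebraMap ℂ K c * φ := by
      have h7 : secL Fr (c • x) = c • φ := by rw [map_smul, hxs]
      rw [← Algebra.smul_def]
      exact h7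
    rw [← hyv, e1, v.ord_mul _ _ (by simpa using hc) hφ0, fam_const v c hc, zero_add]
  · intro q' hq'
    constructor
    · rintro rfl
      rw [hsum] at hφ1
      omega
    · intro hne
      have := hφ2 q' hq' hne
      rw [hsum] at this
      omega

private theorem rdiv_eq (g : K →₀ ℝ) (v : DivVal K) :
    rdiv g v = Finsupp.linearCombination ℝ (fun f => (v.ord f : ℝ)) g := by
  rw [rdiv, Finsupp.linearCombination_apply]
  rfl

/-- the first Chern number of a real divisor -/
private theorem chern (hFSP : StFSP) (hCBD : StCBD) (G : K →₀ ℝ) (C : Fin r → ℝ)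
    (hG : ∀ q ∈ V.primes, rdiv G q = ∑ k, C k * ((B.H k).div q : ℝ)) (l : Fin r) : C l = 0 := by
  classical
  obtain ⟨hD1, hD2, hD3, hD4⟩ := hCBD K V r B
  set X : Set (DivVal K) := {q | q ∈ V.primes ∧ ((∃ f ∈ G.support, f ≠ 0 ∧ q.ord f ≠ 0) ∨
    ∃ k, (B.H k).div q ≠ 0)} with hX
  have hfin : X.Finite := by
    have h1 : (⋃ f ∈ G.support, {q : DivVal K | f ≠ 0 ∧ q ∈ V.primes ∧ q.ord f ≠ 0}).Finite := by
      refine Set.Finite.biUnion G.support.finite_toSet fun f _ => ?_
      by_cases hf : f = 0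
      · subst hf
        simp
      · exact (hFSP K V f hf).subset fun q hq => hq.2
    have h2 : (⋃ k, {q : DivVal K | q ∈ V.primes ∧ (B.H k).div q ≠ 0}).Finite :=
      Set.finite_iUnion fun k => hD2 k
    refine (h1.union h2).subset ?_
    rintro q ⟨hq, ⟨f, hf, hf0, hfq⟩ | ⟨k, hk⟩⟩
    · refine Or.inl ?_
      simp only [Set.mem_iUnion]
      exact ⟨f, hf, hf0, hq, hfq⟩
    · refine Or.inr ?_
      simp only [Set.mem_iUnion]
      exact ⟨k, hq, hk⟩
  set P0 : Finset (DivVal K) := hfin.toFinset with hP0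
  have hmem : ∀ q, q ∈ P0 ↔ q ∈ X := fun q => Set.Finite.mem_toFinset _
  have hsub : (P0 : Set (DivVal K)) ⊆ V.primes := by
    intro q hq
    exact ((hmem q).1 hq).1
  have hf : ∀ f ∈ G.support, ∑ q ∈ P0, (B.deg q l : ℝ) * (q.ord f : ℝ) = 0 := by
    intro f hfG
    by_cases hf0 : f = 0
    · subst hf0
      refine Finset.sum_eq_zero fun q _ => ?_
      rw [q.ord_zero]; simp
    · have e := hD1 f hf0 l
      rw [conv hsub] at e
      · exact_mod_cast e
      · intro q hq hqP
        have : q.ord f = 0 := by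
          by_contra hne
          exact hqP ((hmem q).2 ⟨hq, Or.inl ⟨f, hfG, hf0, hne⟩⟩)
        rw [this, mul_zero]
  have hH : ∀ k, ∑ q ∈ P0, (B.deg q l : ℝ) * ((B.H k).div q : ℝ) = if k = l then 1 else 0 := by
    intro k
    have e0 : ∑ᶠ q ∈ V.primes, (B.deg q l : ℤ) * (B.H k).div q =
        ∑ q ∈ P0, (B.deg q l : ℤ) * (B.H k).div q := by
      refine conv hsub _ fun q hq hqP => ?_
      have : (B.H k).div q = 0 := by
        by_contra hne
        exact hqP ((hmem q).2 ⟨hq, Or.inr ⟨k, hne⟩⟩)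
      rw [this, mul_zero]
    by_cases hkl : k = l
    · subst hkl
      rw [hD3] at e0
      rw [if_pos rfl]
      exact_mod_cast e0.symm
    · rw [hD4 k l hkl] at e0
      rw [if_neg hkl]
      exact_mod_cast e0.symm
  have e1 : ∑ q ∈ P0, (B.deg q l : ℝ) * rdiv G q = 0 := by
    have : ∀ q : DivVal K, (B.deg q l : ℝ) * rdiv G q =
        ∑ f ∈ G.support, G f * ((B.deg q l : ℝ) * (q.ord f : ℝ)) := by
      intro q
      rw [rdiv, Finsupp.sum, Finset.mul_sum]
      refine Finset.sum_congr rfl fun f _ => ?_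
      ring
    simp only [this]
    rw [Finset.sum_comm]
    refine Finset.sum_eq_zero fun f hfG => ?_
    rw [← Finset.mul_sum, hf f hfG, mul_zero]
  have e2 : ∑ q ∈ P0, (B.deg q l : ℝ) * rdiv G q = ∑ k, C k * (if k = l then 1 else 0) := by
    have : ∀ q ∈ P0, (B.deg q l : ℝ) * rdiv G q =
        ∑ k, C k * ((B.deg q l : ℝ) * ((B.H k).div q : ℝ)) := by
      intro q hq
      rw [hG q (hsub hq), Finset.mul_sum]
      refine Finset.sum_congr rfl fun k _ => ?_
      ring
    rw [Finset.sum_congr rfl this, Finset.sum_comm]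
    refine Finset.sum_congr rfl fun k _ => ?_
    rw [← Finset.mul_sum, hH]
  rw [e1] at e2
  simpa using e2.symm

/-- the numerical part -/
private theorem numer (hFSP : StFSP) (hCST : StCST) (hCBD : StCBD) (Fr : Frame B L) {ι : Type}
    [Fintype ι] (p : PairData K ι) {I : Type} [Fintype I] (bI : I → Fin r)
    (W : I → Submodule ℂ (Fin (n + r) → ℂ)) (c : I → ℝ) (fI : I → K)
    (H1 : ∀ v, ∑ x, c x * (Fr.smin v (W x) : ℝ) =
      ∑ x, c x * (v.ord (fI x) : ℝ) - ∑ i, p.b i * (p.M i v : ℝ))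
    (H2 : ∀ q ∈ V.primes, ∑ x, c x * (Fr.smin q (W x) : ℝ) =
      p.B L q - ∑ x, c x * ((B.H (bI x)).div q : ℝ)) :
    (∀ k, (∑ x, if bI x = k then c x else 0) =
      ((Finset.univ.filter fun a => Fr.bl a = k).card : ℝ)) ∧
    ∀ v, ∑ x, c x * (Fr.smin v (W x) : ℝ) = (Fr.Ad v : ℝ) - 1 + p.B L v := by
  classical
  set G : K →₀ ℝ := ∑ x : I, Finsupp.single (fI x) (c x) - ∑ a, Finsupp.single (Fr.g a) 1 - p.g
    with hG
  set N : Fin r → ℝ := fun k => ∑ x : I, if bI x = k then c x else 0 with hN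
  set Cd : Fin r → ℝ := fun k => ((Finset.univ.filter fun a => Fr.bl a = k).card : ℝ) with hCd
  have hrG : ∀ v : DivVal K, rdiv G v = ∑ x : I, c x * (v.ord (fI x) : ℝ) -
      ∑ a, (v.ord (Fr.g a) : ℝ) - rdiv p.g v := by
    intro v
    rw [rdiv_eq, rdiv_eq, hG, map_sub, map_sub, map_sum, map_sum]
    simp only [Finsupp.linearCombination_single, smul_eq_mul, one_mul]
  have hid : ∀ v : DivVal K, ∑ x : I, c x * (Fr.smin v (W x) : ℝ) -
      ((Fr.Ad v : ℝ) - 1 + p.B L v) = rdiv G v := by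
    intro v
    rw [hrG, H1 v, Frame.Ad, PairData.B]
    push_cast
    ring
  have hNs : ∀ q : DivVal K, ∑ x : I, c x * ((B.H (bI x)).div q : ℝ) =
      ∑ k, N k * ((B.H k).div q : ℝ) := by
    intro q
    simp only [hN, Finset.sum_mul]
    rw [Finset.sum_comm]
    refine Finset.sum_congr rfl fun x _ => ?_
    rw [Finset.sum_eq_single (bI x)]
    · rw [if_pos rfl]
    · intro k _ hk
      rw [if_neg (Ne.symm hk), zero_mul]
    · intro h
      exact absurd (Finset.mem_univ _) h
  have hCs : ∀ q : DivVal K, ∑ a, ((B.H (Fr.bl a)).div q : ℝ) =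
      ∑ k, Cd k * ((B.H k).div q : ℝ) := by
    intro q
    have e : ∀ k, Cd k = ∑ a, if Fr.bl a = k then (1 : ℝ) else 0 := by
      intro k
      simp only [hCd, Finset.card_filter]
      push_cast
      rfl
    simp only [e, Finset.sum_mul]
    rw [Finset.sum_comm]
    refine Finset.sum_congr rfl fun a _ => ?_
    rw [Finset.sum_eq_single (Fr.bl a)]
    · rw [if_pos rfl, one_mul]
    · intro k _ hk
      rw [if_neg (Ne.symm hk), zero_mul]
    · intro h
      exact absurd (Finset.mem_univ _) h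
  have hAd : ∀ q ∈ V.primes, (Fr.Ad q : ℝ) - 1 = - ∑ k, Cd k * ((B.H k).div q : ℝ) := by
    intro q hq
    rw [← hCs]
    have : Fr.Ad q - 1 = - ∑ a, (B.H (Fr.bl a)).div q := by
      rw [Frame.Ad]
      by_cases hpr : ∃ a, q = Fr.pr a
      · obtain ⟨a0, rfl⟩ := hpr
        rw [Fr.omega_pr]
        have e : ∀ a, (Fr.pr a0).ord (Fr.g a) =
            (if a = a0 then 1 else 0) - (B.H (Fr.bl a)).div (Fr.pr a0) := by
          intro a
          by_cases h : a = a0
          · subst h
            rw [if_pos rfl]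
            have := Fr.div_self a
            omega
          · rw [if_neg h]
            have := Fr.div_other a (Fr.pr a0) hq (fun h' => h (Fr.pr_inj h').symm)
            omega
        simp only [e, Finset.sum_sub_distrib, Finset.sum_ite_eq', Finset.mem_univ, if_true]
        ring
      · push Not at hpr
        rw [Fr.omega_other q hq hpr]
        have e : ∀ a, q.ord (Fr.g a) = - (B.H (Fr.bl a)).div q := by
          intro a
          have := Fr.div_other a q hq (hpr a)
          omega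
        simp only [e, Finset.sum_neg_distrib]
        ring
    have h2 := congrArg (fun z : ℤ => (z : ℝ)) this
    push_cast at h2
    exact h2
  have hprim : ∀ q ∈ V.primes, rdiv G q = ∑ k, (Cd k - N k) * ((B.H k).div q : ℝ) := by
    intro q hq
    rw [← hid q, H2 q hq, hNs, hAd q hq]
    simp only [sub_mul, Finset.sum_sub_distrib]
    ring
  have hC0 : ∀ k, Cd k - N k = 0 := fun k =>
    chern (B := B) hFSP hCBD G (fun k => Cd k - N k) hprim k
  have hG0 : ∀ v : DivVal K, rdiv G v = 0 := by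
    refine hCST K V G fun q hq => ?_
    rw [hprim q hq]
    exact Finset.sum_eq_zero fun k _ => by rw [hC0 k, zero_mul]
  refine ⟨fun k => ?_, fun v => ?_⟩
  · have := hC0 k
    simp only [hN, hCd] at this ⊢
    linarith
  · have := hid v
    rw [hG0 v] at this
    linarith

end

/-- FAM -/
theorem hFAM (hFSP : StFSP) (hCST : StCST) (hCBD : StCBD) (hGAM : StGAM) (hSEC : StSEC)
    (hPJK : StPJK) : StFAM := by
  classical
  intro K _ _ V r B n L Fr hn ι _ S p hp hS F hF hF0 hdeg hMdeg
  have hBnn : ∀ q ∈ V.primes, 0 ≤ p.B L q := by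
    intro q hq
    rcases hS q hq with h | h
    · exact hp.effective q h
    · rw [h]; exact zero_le_one
  have hq1 : ∀ q : {q // q ∈ F ∧ 0 < p.B L q}, ∃ (k : Fin r)
      (W : Submodule ℂ (Fin (n + r) → ℂ)) (h : K), W ≠ ⊥ ∧ W ≤ Blk Fr.bl k ∧ h ≠ 0 ∧
      (∀ v, Fr.smin v W = v.ord h) ∧
      ∀ q' ∈ V.primes, (q' = q → q'.ord h = 1 - (B.H k).div q') ∧
        (q' ≠ q → q'.ord h = - (B.H k).div q') := fun q =>
    primeData hGAM hSEC Fr q.1 (hF q.2.1) (hdeg q.1 (hF q.2.1) q.2.2)
  choose kq Wq fq q1 q2 q3 q4 q5 using hq1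
  have hi1 : ∀ i : {i // 0 < p.b i}, ∃ (k : Fin r) (W : Submodule ℂ (Fin (n + r) → ℂ)) (h : K),
      W ≠ ⊥ ∧ W ≤ Blk Fr.bl k ∧ h ≠ 0 ∧ (∀ v, p.M i v = v.ord h - Fr.smin v W) ∧
      ∀ q ∈ V.primes, Fr.smin q W = - (B.H k).div q := fun i =>
    hPJK K V r B n L Fr hn (p.M i) (hp.nef i) (hMdeg i.1 i.2)
  choose ki Wi fi i1 i2 i3 i4 i5 using hi1
  let finq : Fintype {q // q ∈ F ∧ 0 < p.B L q} :=
    Fintype.subtype (F.filter fun q => 0 < p.B L q) (by simp)
  -- sums over the nef part
  have hsubs : ∀ v : DivVal K, ∑ i : {i // 0 < p.b i}, p.b i * (p.M i v : ℝ) =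
      ∑ i, p.b i * (p.M i v : ℝ) := by
    intro v
    have e1 : ∑ i ∈ Finset.univ.filter (fun i => 0 < p.b i), p.b i * (p.M i v : ℝ) =
        ∑ i : {i // 0 < p.b i}, p.b i * (p.M i v : ℝ) :=
      Finset.sum_subtype _ (by simp) _
    rw [← e1]
    refine Finset.sum_subset (Finset.filter_subset _ _) fun i _ hi => ?_
    have : p.b i = 0 := by
      have h1 : ¬ 0 < p.b i := fun h => hi (Finset.mem_filter.2 ⟨Finset.mem_univ _, h⟩)
      exact le_antisymm (not_lt.1 h1) (hp.b_nonneg i)
    rw [this, zero_mul]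
  obtain ⟨N1, N2⟩ := numer hFSP hCST hCBD Fr p
    (I := {q // q ∈ F ∧ 0 < p.B L q} ⊕ {i // 0 < p.b i}) (Sum.elim kq ki) (Sum.elim Wq Wi)
    (Sum.elim (fun q => p.B L q.1) (fun i => p.b i.1)) (Sum.elim fq fi)
    (by
      intro v
      rw [Fintype.sum_sum_type, Fintype.sum_sum_type]
      simp only [Sum.elim_inl, Sum.elim_inr, q4]
      have e1 : ∑ i : {i // 0 < p.b i}, p.b i * ((Fr.smin v (Wi i) : ℤ) : ℝ) =
          ∑ i : {i // 0 < p.b i}, p.b i * ((v.ord (fi i) : ℤ) : ℝ) -
            ∑ i, p.b i * (p.M i v : ℝ) := by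
        rw [← hsubs, ← Finset.sum_sub_distrib]
        refine Finset.sum_congr rfl fun i _ => ?_
        rw [i4 i v]
        push_cast
        ring
      rw [e1]
      ring)
    (by
      intro q hq
      rw [Fintype.sum_sum_type, Fintype.sum_sum_type]
      simp only [Sum.elim_inl, Sum.elim_inr]
      have e2 : ∑ i : {i // 0 < p.b i}, p.b i * ((Fr.smin q (Wi i) : ℤ) : ℝ) =
          - ∑ i : {i // 0 < p.b i}, p.b i * (((B.H (ki i)).div q : ℤ) : ℝ) := by
        rw [← Finset.sum_neg_distrib]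
        refine Finset.sum_congr rfl fun i _ => ?_
        rw [i5 i q hq]
        push_cast
        ring
      have e3 : ∀ x : {q // q ∈ F ∧ 0 < p.B L q}, p.B L x * ((Fr.smin q (Wq x) : ℤ) : ℝ) =
          (if q = x.1 then p.B L q else 0) - p.B L x * (((B.H (kq x)).div q : ℤ) : ℝ) := by
        intro x
        rw [q4 x q]
        by_cases h : q = x.1
        · rw [if_pos h, (q5 x q hq).1 h, h]
          push_cast
          ring
        · rw [if_neg h, (q5 x q hq).2 h]
          push_cast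
          ring
      have e4 : ∑ x : {q // q ∈ F ∧ 0 < p.B L q}, (if q = x.1 then p.B L q else 0) =
          p.B L q := by
        by_cases h : q ∈ F ∧ 0 < p.B L q
        · rw [Finset.sum_eq_single ⟨q, h⟩]
          · rw [if_pos rfl]
          · intro x _ hx
            rw [if_neg]
            intro h'
            exact hx (Subtype.ext h'.symm)
          · intro h'
            exact absurd (Finset.mem_univ _) h'
        · have hz : p.B L q = 0 := by
            by_cases hqF : q ∈ F
            · have h1 : ¬ 0 < p.B L q := fun h' => h ⟨hqF, h'⟩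
              exact le_antisymm (not_lt.1 h1) (hBnn q hq)
            · exact hF0 q hq hqF
          rw [hz]
          exact Finset.sum_eq_zero fun x _ => by split_ifs <;> rfl
      rw [e2, Finset.sum_congr rfl fun x _ => e3 x, Finset.sum_sub_distrib, e4]
      ring)
  refine ⟨{ I := {q // q ∈ F ∧ 0 < p.B L q} ⊕ {i // 0 < p.b i}, fin := inferInstance,
            bI := Sum.elim kq ki, W := Sum.elim Wq Wi,
            c := Sum.elim (fun q => p.B L q.1) (fun i => p.b i.1), pos := ?_, ne := ?_,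
            le := ?_, sum := N1 }, N2⟩
  · rintro (x | x)
    · exact x.2.2
    · exact x.2
  · rintro (x | x)
    · exact q1 x
    · exact i1 x
  · rintro (x | x)
    · exact q2 x
    · exact i2 x

end Pool.Agent.Helper61.GX
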