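import Pool.Agent.Helper98.GX.St2

/-!
# Project GX (MP_140278_ag), module FIC
-/

set_option autoImplicit false

open scoped BigOperators

namespace Pool.Agent.Helper61.GX

open Pool.Agent.Helper98.GX
open Pool.Agent.Helper53.CX (DivVal LinSys IsNefCartier)

/-- FIC: the theorem for varieties with a class basis -/
theorem hFIC (hSUM : StSUM) (hFIN : StFIN) (hCBV : StCBV) (hCBY : StCBY) (hCBR : StCBR)
    (hCBS : StCBS) : StFIC := by
  intro K _ _ n L V0 V r B SC ι _ p hp hS C hC ρ hρ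
  by_cases hE : Nonempty (DivVal K)
  · obtain ⟨w⟩ := hE
    obtain ⟨E, hκ, -, hlam⟩ := hCBV K V0 r B w
    obtain ⟨ρ0, hρ0⟩ : ∃ ρ0 : ℕ, Module.rank ℝ (Cl V0.primes) = (ρ0 : Cardinal) :=
      Cardinal.lt_aleph0.1 ((hCBS K V0 r B).trans_lt (Cardinal.natCast_lt_aleph0))
    have hrle := hCBR K V0 r B ρ0 hρ0
    obtain ⟨Y, hY, hYs⟩ := hCBY K V0 r B n L SC
    have h1 := hFIN K n L V0 V E ι p hp hS C hC ρ0 ρ hρ0 hρ
    have h2 := (hSUM K n L V0 E ι V.primes p hp hS).2 Y hY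
    have h3 : E.logDisc L ≤ (n : ℤ) + r := by
      have h4 : ∑ q ∈ Y, (E.lam q : ℤ) = ((∑ q ∈ Y, ∑ k, B.deg q k : ℕ) : ℤ) := by
        rw [Nat.cast_sum]
        exact Finset.sum_congr rfl fun q _ => by rw [hlam q]
      rw [hκ, h4] at h2
      have h5 : ((∑ q ∈ Y, ∑ k, B.deg q k : ℕ) : ℤ) ≤ ((n + r : ℕ) : ℤ) := by
        exact_mod_cast hYs
      push_cast at h2 h5 ⊢
      linarith
    have h6 : (E.logDisc L : ℝ) ≤ (n : ℝ) + r := by exact_mod_cast h3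
    have h7 : (r : ℝ) ≤ ρ0 := by exact_mod_cast hrle
    linarith
  · have hι : IsEmpty ι := ⟨fun i => hp.nontrivial i
      ⟨⟨{1}, ⟨1, by simp⟩, by simp⟩, fun m _ => ⟨1, 1, le_refl _, one_ne_zero,
        fun v => (hE ⟨v⟩).elim⟩⟩⟩
    have hC0 : ∑ v ∈ C, p.B L v = 0 := Finset.sum_eq_zero fun v _ => (hE ⟨v⟩).elim
    have hb0 : ∑ i, p.b i = 0 := Finset.sum_eq_zero fun i _ => (hι.false i).elim
    have h0 : (0 : ℝ) ≤ (n : ℝ) + ρ := by positivity
    linarith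

end Pool.Agent.Helper61.GX
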